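import Pool.Agent.H83.X.T3

/-!
Theorem X, row XFS (board x83): the invariant sets of the `n`-side.
-/

set_option autoImplicit false

open MeasureTheory ProbabilityTheory Filter Topology Finset
open scoped Nat ENNReal

namespace Pool.Agent.H79.X

open Pool.Agent.H83.X
open Pool.Agent.H67.AG (Inv Av)
open Pool.Agent.H28.LF (LX Xi shX SysX)
open Pool.Agent.H83.V (vl fz)

section general

variable {Ω : Type} [MeasurableSpace Ω]

theorem av_meas (T : Ω ≃ᵐ Ω) (n : ℕ) {f : Ω → ℝ}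
    (hf : Measurable f) : Measurable (Av T 1 n f) := by
  unfold Av
  refine Measurable.div_const ?_ _
  exact Finset.measurable_sum _ fun l _ => hf.comp (T.measurable.iterate _)

theorem av_bd (T : Ω ≃ᵐ Ω) (n : ℕ) {f : Ω → ℝ} (hf : ∀ ω, |f ω| ≤ 1) (ω : Ω) :
    |Av T 1 n f ω| ≤ 1 := by
  unfold Av
  rcases Nat.eq_zero_or_pos n with hn | hn
  · subst hn
    simp
  · have hn' : (0 : ℝ) < n := by exact_mod_cast hn
    rw [abs_div, Nat.abs_cast, div_le_one hn']
    refine (Finset.abs_sum_le_sum_abs _ _).trans ?_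
    refine (Finset.sum_le_sum fun l _ => hf _).trans ?_
    simp

theorem av_shift (T : Ω ≃ᵐ Ω) (n : ℕ) {f : Ω → ℝ}
    (hf : ∀ ω, |f ω| ≤ 1) (ω : Ω) : |Av T 1 n f (T ω) - Av T 1 n f ω| ≤ 2 / n := by
  have h1 : ∑ l ∈ range n, f (T^[1 * l] (T ω)) = ∑ l ∈ range n, f (T^[1 * (l + 1)] ω) := by
    refine Finset.sum_congr rfl fun l _ => ?_
    rw [one_mul, one_mul, Function.iterate_succ_apply]
  have h2 := Finset.sum_range_succ (fun l => f (T^[1 * l] ω)) n
  have h3 := Finset.sum_range_succ' (fun l => f (T^[1 * l] ω)) n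
  have h4 : Av T 1 n f (T ω) - Av T 1 n f ω = (f (T^[1 * n] ω) - f (T^[1 * 0] ω)) / n := by
    unfold Av
    rw [h1, ← sub_div]
    congr 1
    linarith
  rw [h4, abs_div, Nat.abs_cast]
  refine div_le_div_of_nonneg_right ?_ (Nat.cast_nonneg _)
  refine (abs_sub _ _).trans ?_
  linarith [hf (T^[1 * n] ω), hf (T^[1 * 0] ω)]

/-- the upper limit of the averages -/
noncomputable def as (T : Ω ≃ᵐ Ω) (f : Ω → ℝ) (ω : Ω) : ℝ :=
  limsup (fun K : ℕ => Av T 1 K f ω) atTop

theorem av_bdd (T : Ω ≃ᵐ Ω) {f : Ω → ℝ} (hf : ∀ ω, |f ω| ≤ 1) (ω : Ω) :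
    IsBoundedUnder (· ≤ ·) atTop (fun K : ℕ => Av T 1 K f ω) :=
  isBoundedUnder_of ⟨1, fun K => (abs_le.1 (av_bd T K hf ω)).2⟩

theorem av_cobdd (T : Ω ≃ᵐ Ω) {f : Ω → ℝ} (hf : ∀ ω, |f ω| ≤ 1) (ω : Ω) :
    IsCoboundedUnder (· ≤ ·) atTop (fun K : ℕ => Av T 1 K f ω) :=
  IsBoundedUnder.isCoboundedUnder_le
    (isBoundedUnder_of ⟨-1, fun K => (abs_le.1 (av_bd T K hf ω)).1⟩)

theorem as_bd (T : Ω ≃ᵐ Ω) {f : Ω → ℝ} (hf : ∀ ω, |f ω| ≤ 1) (ω : Ω) : |as T f ω| ≤ 1 := by
  rw [abs_le]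
  constructor
  · refine le_limsup_of_le (av_bdd T hf ω) fun b hb => ?_
    obtain ⟨K, hK⟩ := hb.exists
    exact ((abs_le.1 (av_bd T K hf ω)).1).trans hK
  · exact limsup_le_of_le (av_cobdd T hf ω)
      (Eventually.of_forall fun K => (abs_le.1 (av_bd T K hf ω)).2)

theorem as_meas (T : Ω ≃ᵐ Ω) {f : Ω → ℝ} (hf : Measurable f) : Measurable (as T f) :=
  Measurable.limsup fun K => av_meas T K hf

theorem as_le (T : Ω ≃ᵐ Ω) {f : Ω → ℝ} (hf : ∀ ω, |f ω| ≤ 1) (ω ω' : Ω)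
    (h : ∀ n : ℕ, |Av T 1 n f ω' - Av T 1 n f ω| ≤ 2 / n) : as T f ω' ≤ as T f ω := by
  refine le_of_forall_pos_le_add fun ε hε => ?_
  refine limsup_le_of_le (av_cobdd T hf ω') ?_
  have h1 : ∀ᶠ K : ℕ in atTop, Av T 1 K f ω < as T f ω + ε / 2 :=
    eventually_lt_of_limsup_lt (show limsup (fun K : ℕ => Av T 1 K f ω) atTop <
      as T f ω + ε / 2 by change as T f ω < _; linarith) (av_bdd T hf ω)
  have h2 : ∀ᶠ K : ℕ in atTop, 2 / (K : ℝ) < ε / 2 :=
    (tendsto_const_div_atTop_nhds_zero_nat 2).eventually_lt_const (by linarith)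
  filter_upwards [h1, h2] with K h3 h4
  have h5 := (abs_le.1 (h K)).2
  linarith

theorem as_inv (T : Ω ≃ᵐ Ω) {f : Ω → ℝ} (hf : ∀ ω, |f ω| ≤ 1) (ω : Ω) :
    as T f (T ω) = as T f ω := by
  apply le_antisymm
  · exact as_le T hf ω (T ω) fun n => av_shift T n hf ω
  · refine as_le T hf (T ω) ω fun n => ?_
    rw [abs_sub_comm]
    exact av_shift T n hf ω

variable (P : Measure Ω) [IsProbabilityMeasure P]

theorem int_of_bd {f : Ω → ℝ} (hf : Measurable f) (C : ℝ) (hb : ∀ ω, |f ω| ≤ C) :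
    Integrable f P :=
  Integrable.of_bound hf.aestronglyMeasurable C (Eventually.of_forall fun ω => by
    rw [Real.norm_eq_abs]; exact hb ω)

theorem av_int (T : Ω ≃ᵐ Ω) (hT : MeasurePreserving T P P) {v g : Ω → ℝ} (hv : Measurable v)
    (hg : Measurable g) (hvb : ∀ ω, |v ω| ≤ 1) (hgb : ∀ ω, |g ω| ≤ 1)
    (hinv : ∀ᵐ ω ∂P, v (T ω) = v ω) (K : ℕ) (hK : 0 < K) :
    ∫ ω, v ω * Av T 1 K g ω ∂P = ∫ ω, v ω * g ω ∂P := by
  have hit : ∀ j : ℕ, ∀ᵐ ω ∂P, v (T^[j] ω) = v ω := by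
    intro j
    induction j with
    | zero => exact Eventually.of_forall fun ω => rfl
    | succ j ih =>
      have h1 := (hT.iterate j).quasiMeasurePreserving.ae hinv
      filter_upwards [ih, h1] with ω h2 h3
      rw [Function.iterate_succ_apply', h3, h2]
  have hj : ∀ j : ℕ, ∫ ω, v ω * g (T^[j] ω) ∂P = ∫ ω, v ω * g ω ∂P := by
    intro j
    have h1 : ∫ ω, v ω * g (T^[j] ω) ∂P = ∫ ω, v (T^[j] ω) * g (T^[j] ω) ∂P := by
      refine integral_congr_ae ?_
      filter_upwards [hit j] with ω h2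
      rw [h2]
    have h := integral_map (μ := P) (hT.iterate j).measurable.aemeasurable
      (f := fun ω => v ω * g ω) (hv.mul hg).aestronglyMeasurable
    rw [(hT.iterate j).map_eq] at h
    rw [h1]
    exact h.symm
  have hK' : (K : ℝ) ≠ 0 := by exact_mod_cast hK.ne'
  have e1 : ∀ ω, v ω * Av T 1 K g ω = (∑ l ∈ range K, v ω * g (T^[l] ω)) / K := by
    intro ω
    unfold Av
    rw [mul_div_assoc', Finset.mul_sum]
    simp only [one_mul]
  have hint : ∀ l ∈ range K, Integrable (fun ω => v ω * g (T^[l] ω)) P := by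
    intro l _
    refine int_of_bd P (hv.mul (hg.comp (T.measurable.iterate l))) 1 fun ω => ?_
    rw [abs_mul]
    exact mul_le_one₀ (hvb ω) (abs_nonneg _) (hgb _)
  simp_rw [e1]
  rw [integral_div, integral_finsetSum _ hint, Finset.sum_congr rfl fun l _ => hj l,
    Finset.sum_const, Finset.card_range, nsmul_eq_mul]
  field_simp

theorem as_int (T : Ω ≃ᵐ Ω) (hT : MeasurePreserving T P P) {v g : Ω → ℝ} (hv : Measurable v)
    (hg : Measurable g) (hvb : ∀ ω, |v ω| ≤ 1) (hgb : ∀ ω, |g ω| ≤ 1)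
    (hinv : ∀ᵐ ω ∂P, v (T ω) = v ω)
    (hlim : ∀ᵐ ω ∂P, Tendsto (fun K : ℕ => Av T 1 K g ω) atTop (𝓝 (as T g ω))) :
    ∫ ω, v ω * as T g ω ∂P = ∫ ω, v ω * g ω ∂P := by
  have h1 : Tendsto (fun K : ℕ => ∫ ω, v ω * Av T 1 K g ω ∂P) atTop
      (𝓝 (∫ ω, v ω * as T g ω ∂P)) := by
    refine tendsto_integral_of_dominated_convergence (fun _ => 1)
      (fun K => (hv.mul (av_meas T K hg)).aestronglyMeasurable) (integrable_const _)
      (fun K => Eventually.of_forall fun ω => ?_) ?_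
    · rw [Real.norm_eq_abs, abs_mul]
      exact mul_le_one₀ (hvb ω) (abs_nonneg _) (av_bd T K hgb ω)
    · filter_upwards [hlim] with ω h
      exact h.const_mul _
  have h2 : Tendsto (fun K : ℕ => ∫ ω, v ω * Av T 1 K g ω ∂P) atTop
      (𝓝 (∫ ω, v ω * g ω ∂P)) := by
    refine tendsto_const_nhds.congr' ?_
    filter_upwards [eventually_gt_atTop 0] with K hK
    exact (av_int P T hT hv hg hvb hgb hinv K hK).symm
  exact tendsto_nhds_unique h1 h2

end general

theorem vR_meas (R : ℕ) : Measurable (fun ξ : Xi => vR R (ξ 0).2) := by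
  unfold vR
  refine Measurable.div_const (Finset.measurable_sum _ fun s _ => ?_) _
  have h1 : Measurable (fun ξ : Xi => (ξ 0).2 s) :=
    (measurable_pi_apply s).comp (measurable_pi_apply (0 : ℤ)).snd
  have h2 : Measurable (fun b : Bool => if b then (1 : ℝ) else 0) := measurable_of_countable _
  exact h2.comp h1

theorem vR_bd (R : ℕ) (b : ℕ → Bool) : 0 ≤ vR R b ∧ vR R b ≤ 1 := by
  unfold vR
  have h0 : 0 ≤ ∑ s ∈ range R, if b s then (1 : ℝ) else 0 :=
    Finset.sum_nonneg fun s _ => by split_ifs <;> norm_num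
  have h1 : ∑ s ∈ range R, (if b s then (1 : ℝ) else 0) ≤ R := by
    refine (Finset.sum_le_sum (g := fun _ => (1 : ℝ)) fun s _ => ?_).trans (by simp)
    split_ifs <;> norm_num
  exact ⟨div_nonneg h0 (Nat.cast_nonneg _), div_le_one_of_le₀ h1 (Nat.cast_nonneg _)⟩

theorem vl_bd (z : Bool) (b : Bool × Bool) : |(vl z b : ℝ)| ≤ 1 := by
  unfold vl
  split_ifs <;> simp

theorem gX_bd (z : Bool) (h : ℕ) (ξ : Xi) : |gX z h ξ| ≤ 1 := by
  unfold gX
  rw [abs_mul]
  exact mul_le_one₀ (vl_bd z _) (abs_nonneg _) (vl_bd z _)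

theorem gX_meas (z : Bool) (h : ℕ) : Measurable (gX z h) := by
  unfold gX
  have h2 : Measurable (fun b : Bool × Bool => (vl z b : ℝ)) := measurable_of_countable _
  refine Measurable.mul ?_ ?_
  · exact h2.comp (measurable_pi_apply (1 : ℤ)).fst
  · exact h2.comp (measurable_pi_apply (1 + h : ℤ)).fst

theorem pf_XFS (h : Pool.Agent.H40.AG.T_BK) : T_XFS := by
  intro z hh R L Φ c η η₀ a b PX hΦ hR hη hLin hS hK
  have := hS.prob
  classical
  set g := gX z hh with hgdef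
  have hgm : Measurable g := gX_meas z hh
  have hgb : ∀ ξ, |g ξ| ≤ 1 := gX_bd z hh
  have hΦc : Continuous Φ := continuousOn_univ.1 (hΦ.continuousOn isOpen_univ)
  set A : Xi → ℝ := as shX g with hA
  have hAm : Measurable A := as_meas shX hgm
  have hAb : ∀ ξ, |A ξ| ≤ 1 := as_bd shX hgb
  have hAi : ∀ ξ, A (shX ξ) = A ξ := as_inv shX hgb
  have hlim : ∀ᵐ ξ ∂PX, Tendsto (fun K : ℕ => Av shX 1 K g ξ) atTop (𝓝 (A ξ)) := by
    filter_upwards [h Xi PX shX 1 g hS.inv hgm ⟨1, hgb⟩] with ξ hξ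
    have : A ξ = _ := hξ.limsup_eq
    rw [this]
    exact hξ
  -- the label
  set V : Xi → ℝ := fun ξ => vR R (ξ 0).2 with hV
  have hVm : Measurable V := vR_meas R
  have hVb : ∀ ξ, 0 ≤ V ξ ∧ V ξ ≤ 1 := fun ξ => vR_bd R _
  have hVa : ∀ ξ, |V ξ| ≤ 1 := fun ξ => by rw [abs_of_nonneg (hVb ξ).1]; exact (hVb ξ).2
  have hVi : ∀ᵐ ξ ∂PX, V (shX ξ) = V ξ := by
    filter_upwards [hS.lab] with ξ hξ
    have e : (shX ξ) 0 = ξ 1 := rfl
    simp only [hV]
    rw [e, hξ]
  -- bound for Φ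
  obtain ⟨B, hB⟩ : ∃ B : ℝ, ∀ t, |t| ≤ 1 → |Φ t| ≤ B := by
    obtain ⟨B, hB⟩ := (isCompact_Icc (a := (-1 : ℝ)) (b := 1)).exists_bound_of_continuousOn
      hΦc.continuousOn
    exact ⟨B, fun t ht => hB t (abs_le.1 ht)⟩
  have hlow : η₀ ≤ ∫ ξ, V ξ * (Φ (A ξ) - c) ∂PX := by
    have h1 : Tendsto (fun K : ℕ => ∫ ξ, V ξ * (Φ (Av shX 1 K g ξ) - c) ∂PX) atTop
        (𝓝 (∫ ξ, V ξ * (Φ (A ξ) - c) ∂PX)) := by
      refine tendsto_integral_of_dominated_convergence (fun _ => B + |c|)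
        (fun K => (hVm.mul ((hΦc.measurable.comp (av_meas shX K hgm)).sub_const
          c)).aestronglyMeasurable) (integrable_const _)
        (fun K => Eventually.of_forall fun ξ => ?_) ?_
      · rw [Real.norm_eq_abs, abs_mul]
        have h2 : |Φ (Av shX 1 K g ξ) - c| ≤ B + |c| :=
          (abs_sub _ _).trans (add_le_add (hB _ (av_bd shX K hgb ξ)) le_rfl)
        exact (mul_le_of_le_one_left (abs_nonneg _) (hVa ξ)).trans h2
      · filter_upwards [hlim] with ξ hξ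
        exact (((hΦc.tendsto _).comp hξ).sub_const c).const_mul _
    refine ge_of_tendsto h1 ?_
    filter_upwards [eventually_gt_atTop 0] with K hK0
    exact hK K hK0
  -- the partition
  let p : Xi → Fin L → Prop := fun ξ l => Φ (A ξ) ≤ a l * A ξ + b l + η
  let F : Fin L → Set Xi := fun l => {ξ | p ξ l ∧ ∀ l' < l, ¬ p ξ l'}
  have hpm : ∀ l, MeasurableSet {ξ | p ξ l} := fun l =>
    measurableSet_le (hΦc.measurable.comp hAm) (((hAm.const_mul (a l)).add_const _).add_const _)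
  have hFm : ∀ l, MeasurableSet (F l) := by
    intro l
    have : F l = {ξ | p ξ l} ∩ ⋂ l' : Fin L, ⋂ (_ : l' < l), {ξ | p ξ l'}ᶜ := by
      ext ξ
      simp [F]
    rw [this]
    exact (hpm l).inter (MeasurableSet.iInter fun l' => MeasurableSet.iInter fun _ =>
      (hpm l').compl)
  have hFi : ∀ l, shX ⁻¹' (F l) = F l := by
    intro l
    ext ξ
    change (Φ (A (shX ξ)) ≤ a l * A (shX ξ) + b l + η ∧
      ∀ l' < l, ¬ (Φ (A (shX ξ)) ≤ a l' * A (shX ξ) + b l' + η)) ↔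
      (Φ (A ξ) ≤ a l * A ξ + b l + η ∧ ∀ l' < l, ¬ (Φ (A ξ) ≤ a l' * A ξ + b l' + η))
    rw [hAi]
  have hFp : ∀ ξ, ∃! l, ξ ∈ F l := by
    intro ξ
    obtain ⟨l0, hl0⟩ := hLin.ge (A ξ) (hAb ξ)
    obtain ⟨l, hl, hmin⟩ := (wellFounded_lt (α := Fin L)).has_min {l | p ξ l} ⟨l0, hl0⟩
    have hlF : ξ ∈ F l := ⟨hl, fun l' hl' hp => hmin l' hp hl'⟩
    refine ⟨l, hlF, fun m hm => ?_⟩
    rcases lt_trichotomy m l with h1 | h1 | h1
    · exact absurd hm.1 (hlF.2 m h1)
    · exact h1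
    · exact absurd hl (hm.2 l h1)
  refine ⟨F, ⟨hFm, hFi, hFp⟩, ?_⟩
  -- integrals over F l
  have hkey : ∀ l, ∫ ξ in F l, fL z hh R c a b l ξ ∂PX =
      ∫ ξ, (F l).indicator (fun ξ => V ξ * (a l * A ξ + b l - c)) ξ ∂PX := by
    intro l
    have hvm : Measurable ((F l).indicator V) := hVm.indicator (hFm l)
    have hvb : ∀ ξ, |(F l).indicator V ξ| ≤ 1 := by
      intro ξ
      by_cases hξ : ξ ∈ F l
      · rw [Set.indicator_of_mem hξ]; exact hVa ξ
      · rw [Set.indicator_of_notMem hξ, abs_zero]; exact zero_le_one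
    have hvi : ∀ᵐ ξ ∂PX, (F l).indicator V (shX ξ) = (F l).indicator V ξ := by
      filter_upwards [hVi] with ξ hξ
      have hiff : shX ξ ∈ F l ↔ ξ ∈ F l := by
        have := congrArg (fun s => ξ ∈ s) (hFi l)
        exact iff_of_eq this
      by_cases hm : ξ ∈ F l
      · rw [Set.indicator_of_mem hm, Set.indicator_of_mem (hiff.2 hm), hξ]
      · rw [Set.indicator_of_notMem hm, Set.indicator_of_notMem (fun h' => hm (hiff.1 h'))]
    have h1 := as_int PX shX hS.inv hvm hgm hvb hgb hvi hlim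
    have i1 : Integrable (fun ξ => (F l).indicator V ξ * g ξ) PX :=
      int_of_bd PX (hvm.mul hgm) 1 fun ξ => by
        rw [abs_mul]; exact mul_le_one₀ (hvb ξ) (abs_nonneg _) (hgb ξ)
    have i2 : Integrable (fun ξ => (F l).indicator V ξ * A ξ) PX :=
      int_of_bd PX (hvm.mul hAm) 1 fun ξ => by
        rw [abs_mul]; exact mul_le_one₀ (hvb ξ) (abs_nonneg _) (hAb ξ)
    have i3 : Integrable ((F l).indicator V) PX := int_of_bd PX hvm 1 hvb
    rw [← integral_indicator (hFm l)]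
    have e1 : ∀ ξ, (F l).indicator (fun ξ => fL z hh R c a b l ξ) ξ =
        a l * ((F l).indicator V ξ * g ξ) + (b l - c) * (F l).indicator V ξ := by
      intro ξ
      by_cases hξ : ξ ∈ F l
      · rw [Set.indicator_of_mem hξ, Set.indicator_of_mem hξ]
        simp only [fL, hV, hgdef]
        ring
      · rw [Set.indicator_of_notMem hξ, Set.indicator_of_notMem hξ]
        ring
    have e2 : ∀ ξ, (F l).indicator (fun ξ => V ξ * (a l * A ξ + b l - c)) ξ =
        a l * ((F l).indicator V ξ * A ξ) + (b l - c) * (F l).indicator V ξ := by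
      intro ξ
      by_cases hξ : ξ ∈ F l
      · rw [Set.indicator_of_mem hξ, Set.indicator_of_mem hξ]
        ring
      · rw [Set.indicator_of_notMem hξ, Set.indicator_of_notMem hξ]
        ring
    simp_rw [e1, e2]
    rw [integral_add (i1.const_mul _) (i3.const_mul _),
      integral_add (i2.const_mul _) (i3.const_mul _), integral_const_mul, integral_const_mul,
      integral_const_mul, h1]
  rw [Finset.sum_congr rfl fun l _ => hkey l]
  have hGi : ∀ l ∈ (Finset.univ : Finset (Fin L)),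
      Integrable (fun ξ => (F l).indicator (fun ξ => V ξ * (a l * A ξ + b l - c)) ξ) PX := by
    intro l _
    refine int_of_bd PX ((hVm.mul (((hAm.const_mul (a l)).add_const _).sub_const c)).indicator
      (hFm l)) (|a l| + |b l| + |c|) fun ξ => ?_
    have hnn : 0 ≤ |a l| + |b l| + |c| := by positivity
    by_cases hξ : ξ ∈ F l
    · rw [Set.indicator_of_mem hξ, abs_mul]
      refine (mul_le_of_le_one_left (abs_nonneg _) (hVa ξ)).trans ?_
      refine (abs_sub _ _).trans (add_le_add ((abs_add_le _ _).trans (add_le_add ?_ le_rfl)) le_rfl)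
      rw [abs_mul]
      exact mul_le_of_le_one_right (abs_nonneg _) (hAb ξ)
    · rw [Set.indicator_of_notMem hξ, abs_zero]; exact hnn
  rw [← integral_finsetSum _ hGi]
  have hsumi : Integrable (fun ξ => ∑ l : Fin L,
      (F l).indicator (fun ξ => V ξ * (a l * A ξ + b l - c)) ξ) PX := integrable_finsetSum _ hGi
  have hle : ∫ ξ, V ξ * (Φ (A ξ) - c) ∂PX ≤ ∫ ξ, (∑ l : Fin L,
      (F l).indicator (fun ξ => V ξ * (a l * A ξ + b l - c)) ξ + η) ∂PX := by
    refine integral_mono ?_ (hsumi.add (integrable_const _)) fun ξ => ?_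
    · refine int_of_bd PX (hVm.mul ((hΦc.measurable.comp hAm).sub_const c)) (B + |c|) fun ξ => ?_
      rw [abs_mul]
      exact (mul_le_of_le_one_left (abs_nonneg _) (hVa ξ)).trans
        ((abs_sub _ _).trans (add_le_add (hB _ (hAb ξ)) le_rfl))
    · obtain ⟨l, hl, huniq⟩ := hFp ξ
      have hs : ∑ l : Fin L, (F l).indicator (fun ξ => V ξ * (a l * A ξ + b l - c)) ξ =
          V ξ * (a l * A ξ + b l - c) := by
        rw [Finset.sum_eq_single l]
        · rw [Set.indicator_of_mem hl]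
        · intro m _ hm
          rw [Set.indicator_of_notMem fun hmem => hm (huniq m hmem)]
        · intro hl'
          exact absurd (Finset.mem_univ l) hl'
      simp only
      rw [hs]
      have h1 : Φ (A ξ) ≤ a l * A ξ + b l + η := hl.1
      have h2 : V ξ * (Φ (A ξ) - c) ≤ V ξ * (a l * A ξ + b l - c + η) :=
        mul_le_mul_of_nonneg_left (by linarith) (hVb ξ).1
      have h3 : V ξ * η ≤ η := mul_le_of_le_one_left hη (hVb ξ).2
      nlinarith
  rw [integral_add hsumi (integrable_const _)] at hle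
  simp only [integral_const, probReal_univ, smul_eq_mul, one_mul] at hle
  linarith

end Pool.Agent.H79.X
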